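import Mathlib
import Pool.Agent.S07416

set_option autoImplicit false

namespace Pool.Agent.Results.MP_d28c7d_co.NotAlmostAll

open Pool.Agent.S07416

/-- The set of all finite permutations. -/
abbrev Permutation := Σ k : ℕ, Equiv.Perm (Fin k)

/-- The entries of `τ` at the positions in `S` contain a copy of `σ`: some of them form a
subsequence order isomorphic to `σ`. -/
def CopyIn {k m : ℕ} (σ : Equiv.Perm (Fin k)) (τ : Equiv.Perm (Fin m)) (S : Set (Fin m)) : Prop :=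
  ∃ f : Fin k ↪o Fin m, (∀ i, f i ∈ S) ∧ ∀ i j, σ i < σ j ↔ τ (f i) < τ (f j)

/-- `τ` contains the pattern `σ`. -/
def Contains {k m : ℕ} (τ : Equiv.Perm (Fin m)) (σ : Equiv.Perm (Fin k)) : Prop :=
  ∃ f : Fin k ↪o Fin m, ∀ i j, σ i < σ j ↔ τ (f i) < τ (f j)

/-- `Av π` is the set of all permutations that do not contain `π`. -/
def Av {n : ℕ} (π : Equiv.Perm (Fin n)) : Set Permutation := {τ | ¬ Contains τ.2 π}

/-- `C` is unsplittable: for all `σ`, `ρ` in `C` there is `τ` in `C` such that for every red-blue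
colouring of the entries of `τ` (`S` is the set of the positions of the red entries) there is a red
copy of `σ` or a blue copy of `ρ`. -/
def IsUnsplittable (C : Set Permutation) : Prop :=
  ∀ σ ∈ C, ∀ ρ ∈ C, ∃ τ ∈ C, ∀ S : Set (Fin τ.1), CopyIn σ.2 τ.2 S ∨ CopyIn ρ.2 τ.2 Sᶜ

/-- The probability that `Av π` is unsplittable, for `π` uniformly random in `S_n`. -/
noncomputable def p (n : ℕ) : ℝ :=
  (({π : Equiv.Perm (Fin n) | IsUnsplittable (Av π)} : Set (Equiv.Perm (Fin n))).ncard : ℝ) /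
    (n.factorial : ℝ)

lemma not_unsplittable {n : ℕ} (π : Equiv.Perm (Fin n)) (i d : ℕ) (H : Hyp n i d (pv π)) :
    ¬ IsUnsplittable (Av π) := by
  obtain ⟨A, B, -, -, -, -, ⟨m1, σ, hσ, hσA⟩, ⟨m2, ρ, hρ, hρB⟩, hm⟩ := splittable π i d H
  intro hU
  obtain ⟨⟨m, τ⟩, hτ, hcol⟩ := hU ⟨m1, σ⟩ hσ ⟨m2, ρ⟩ hρ
  obtain ⟨S, hSA, hSB⟩ := hm m τ hτ
  rcases hcol S with ⟨f, hf, hf2⟩ | ⟨f, hf, hf2⟩
  · exact hσA (hSA m1 σ f hf hf2)
  · exact hρB (hSB m2 ρ f hf hf2)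

lemma bound (M : ℕ) (hM : 1 ≤ M) : p (21 ^ 24 * M) ≤ 1 - 1 / (4 * 21 ^ 46) := by
  have hbig : 4 ≤ 21 ^ 23 * M := by
    calc 4 ≤ 21 ^ 23 * 1 := by norm_num
      _ ≤ 21 ^ 23 * M := Nat.mul_le_mul_left _ hM
  have hMw : M ≤ 21 ^ 23 * M := Nat.le_mul_of_pos_left _ (by norm_num)
  have hgood := good_large M hM
  rw [show 21 ^ 24 * M = 21 * (21 ^ 23 * M) by ring]
  apply ratio_bound _ (Good (21 ^ 23 * M) M)
  · intro π hπ hU
    obtain ⟨i, d, H⟩ := Good_hyp hbig hMw hπ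
    exact not_unsplittable π i d H hU
  · refine le_trans (le_of_eq ?_) hgood
    ring

lemma p_nonneg (n : ℕ) : 0 ≤ p n := by
  unfold p
  positivity

lemma freq : ∃ᶠ n in Filter.atTop, p n ≤ 1 - 1 / (4 * 21 ^ 46) := by
  rw [Filter.frequently_atTop]
  intro N
  refine ⟨21 ^ 24 * (N + 1), ?_, bound (N + 1) (by omega)⟩
  have : N + 1 ≤ 21 ^ 24 * (N + 1) := Nat.le_mul_of_pos_left _ (by norm_num)
  omega

/-- (1) `p_n ≤ 1 - 1 / (4 * 21 ^ 46)` for every positive multiple `n` of `21 ^ 24`; (2) hence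
`liminf p_n ≤ 1 - 1 / (4 * 21 ^ 46)`; (3) `p_n` does not tend to `1`. -/
theorem result :
    (∀ M : ℕ, 1 ≤ M → p (21 ^ 24 * M) ≤ 1 - 1 / (4 * 21 ^ 46)) ∧
      Filter.liminf p Filter.atTop ≤ 1 - 1 / (4 * 21 ^ 46) ∧
      ¬ Filter.Tendsto p Filter.atTop (nhds 1) := by
  refine ⟨bound, ?_, ?_⟩
  · exact Filter.liminf_le_of_frequently_le freq
      (Filter.isBoundedUnder_of ⟨0, fun n => p_nonneg n⟩)
  · intro h
    have h1 : (1 : ℝ) - 1 / (4 * 21 ^ 46) < 1 := by norm_num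
    have h2 := h.eventually (lt_mem_nhds h1)
    obtain ⟨n, h3, h4⟩ := (freq.and_eventually h2).exists
    linarith

end Pool.Agent.Results.MP_d28c7d_co.NotAlmostAll
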